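import Pool.Agent.N223.PS.Def

/-!
The interpolation of a closed self-avoiding lattice path is a simple closed curve.
-/

set_option autoImplicit false
set_option linter.unusedVariables false

namespace Pool.Agent.N769.PS

open Pool.Agent.N223.PS

/-- the four unit vectors -/
theorem nb_cases {p q : ℤ × ℤ} (h : Nb p q) :
    (q.1 = p.1 + 1 ∧ q.2 = p.2) ∨ (q.1 = p.1 - 1 ∧ q.2 = p.2) ∨
    (q.1 = p.1 ∧ q.2 = p.2 + 1) ∨ (q.1 = p.1 ∧ q.2 = p.2 - 1) := by
  unfold Nb at h
  rcases abs_cases (p.1 - q.1) with a1 | a1 <;> rcases abs_cases (p.2 - q.2) with a2 | a2 <;> omega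

/-- different edges have different midpoints -/
theorem mid_ne {n : ℕ} {g : ℕ → ℤ × ℤ} (hg : Cl n g) {k k' : ℕ} (hk : k < n) (hk' : k' < n)
    (hkk : k ≠ k') (h1 : (g k).1 + (g (k + 1)).1 = (g k').1 + (g (k' + 1)).1)
    (h2 : (g k).2 + (g (k + 1)).2 = (g k').2 + (g (k' + 1)).2) : False := by
  have hn := hg.four
  have c1 := nb_cases (hg.adj k hk)
  have c2 := nb_cases (hg.adj k' hk')
  have key : ((g k).1 = (g k').1 ∧ (g k).2 = (g k').2) ∨
      (((g k).1 = (g (k' + 1)).1 ∧ (g k).2 = (g (k' + 1)).2) ∧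
       ((g (k + 1)).1 = (g k').1 ∧ (g (k + 1)).2 = (g k').2)) := by
    rcases c1 with c1 | c1 | c1 | c1 <;> rcases c2 with c2 | c2 | c2 | c2 <;> omega
  rcases key with ⟨e1, e2⟩ | ⟨⟨e1, e2⟩, e3, e4⟩
  · exact hkk (hg.inj k hk k' hk' (Prod.ext e1 e2))
  · have u1 : g k = g (k' + 1) := Prod.ext e1 e2
    have u2 : g (k + 1) = g k' := Prod.ext e3 e4
    have v1 : k = k' + 1 ∨ (k' + 1 = n ∧ k = 0) := by
      rcases Nat.lt_or_ge (k' + 1) n with h | h
      · exact Or.inl (hg.inj k hk (k' + 1) h u1)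
      · have h3 : k' + 1 = n := by omega
        rw [h3, hg.clo] at u1
        exact Or.inr ⟨h3, hg.inj k hk 0 (by omega) u1⟩
    have v2 : k' = k + 1 ∨ (k + 1 = n ∧ k' = 0) := by
      rcases Nat.lt_or_ge (k + 1) n with h | h
      · exact Or.inl (hg.inj (k + 1) h k' hk' u2).symm
      · have h3 : k + 1 = n := by omega
        rw [h3, hg.clo] at u2
        exact Or.inr ⟨h3, (hg.inj 0 (by omega) k' hk' u2).symm⟩
    omega

/-- the sum of the absolute values of the coordinates of a unit vector -/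
theorem un_abs {p q : ℤ × ℤ} (h : Nb p q) :
    |((q.1 : ℝ) - p.1)| + |((q.2 : ℝ) - p.2)| = 1 := by
  rcases nb_cases h with c | c | c | c <;> rw [c.1, c.2] <;> push_cast <;> simp

/-- a common point of two different edges is a vertex of both -/
theorem vertex {n : ℕ} {g : ℕ → ℤ × ℤ} (hg : Cl n g) {k k' : ℕ} (hk : k < n) (hk' : k' < n)
    (hkk : k ≠ k') {θ θ' : ℝ} (h0 : 0 ≤ θ) (h1 : θ ≤ 1) (h0' : 0 ≤ θ') (h1' : θ' ≤ 1)
    (r1 : ((g k).1 : ℝ) + θ * (((g (k + 1)).1 : ℝ) - (g k).1) =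
      ((g k').1 : ℝ) + θ' * (((g (k' + 1)).1 : ℝ) - (g k').1))
    (r2 : ((g k).2 : ℝ) + θ * (((g (k + 1)).2 : ℝ) - (g k).2) =
      ((g k').2 : ℝ) + θ' * (((g (k' + 1)).2 : ℝ) - (g k').2)) :
    (θ = 0 ∨ θ = 1) ∧ (θ' = 0 ∨ θ' = 1) := by
  obtain ⟨D1, hD1⟩ : ∃ D1, D1 = (g k).1 + (g (k + 1)).1 - ((g k').1 + (g (k' + 1)).1) := ⟨_, rfl⟩
  obtain ⟨D2, hD2⟩ : ∃ D2, D2 = (g k).2 + (g (k + 1)).2 - ((g k').2 + (g (k' + 1)).2) := ⟨_, rfl⟩
  have c1 := nb_cases (hg.adj k hk)
  have c2 := nb_cases (hg.adj k' hk')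
  have hpar : (D1 + D2) % 2 = 0 := by
    rcases c1 with c1 | c1 | c1 | c1 <;> rcases c2 with c2 | c2 | c2 | c2 <;> omega
  have hD : 2 ≤ |D1| + |D2| := by
    by_contra hc
    have m5 : D1 = 0 ∧ D2 = 0 := by
      rcases abs_cases D1 with a1 | a1 <;> rcases abs_cases D2 with a2 | a2 <;> omega
    exact mid_ne hg hk hk' hkk (by omega) (by omega)
  have hDr : (2 : ℝ) ≤ |(D1 : ℝ)| + |(D2 : ℝ)| := by exact_mod_cast hD
  have hun1 := un_abs (hg.adj k hk)
  have hun2 := un_abs (hg.adj k' hk')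
  obtain ⟨e1, he1⟩ : ∃ e1, e1 = ((g (k + 1)).1 : ℝ) - (g k).1 := ⟨_, rfl⟩
  obtain ⟨e2, he2⟩ : ∃ e2, e2 = ((g (k + 1)).2 : ℝ) - (g k).2 := ⟨_, rfl⟩
  obtain ⟨f1, hf1⟩ : ∃ f1, f1 = ((g (k' + 1)).1 : ℝ) - (g k').1 := ⟨_, rfl⟩
  obtain ⟨f2, hf2⟩ : ∃ f2, f2 = ((g (k' + 1)).2 : ℝ) - (g k').2 := ⟨_, rfl⟩
  rw [← he1, ← he2] at hun1
  rw [← hf1, ← hf2] at hun2
  rw [← he1, ← hf1] at r1
  rw [← he2, ← hf2] at r2
  have k1 : (D1 : ℝ) = (2 * θ' - 1) * f1 - (2 * θ - 1) * e1 := by
    rw [hD1]; push_cast; linarith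
  have k2 : (D2 : ℝ) = (2 * θ' - 1) * f2 - (2 * θ - 1) * e2 := by
    rw [hD2]; push_cast; linarith
  have n1 : |(D1 : ℝ)| ≤ |2 * θ' - 1| * |f1| + |2 * θ - 1| * |e1| := by
    rw [k1, ← abs_mul, ← abs_mul]
    exact abs_sub _ _
  have n2 : |(D2 : ℝ)| ≤ |2 * θ' - 1| * |f2| + |2 * θ - 1| * |e2| := by
    rw [k2, ← abs_mul, ← abs_mul]
    exact abs_sub _ _
  have n3 : 2 ≤ |2 * θ' - 1| + |2 * θ - 1| := by
    calc (2 : ℝ) ≤ |(D1 : ℝ)| + |(D2 : ℝ)| := hDr
      _ ≤ |2 * θ' - 1| * (|f1| + |f2|) + |2 * θ - 1| * (|e1| + |e2|) := by linarith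
      _ = _ := by rw [hun1, hun2]; ring
  rcases abs_cases (2 * θ' - 1) with h2 | h2 <;> rcases abs_cases (2 * θ - 1) with h3 | h3
  · exact ⟨Or.inr (by linarith), Or.inr (by linarith)⟩
  · exact ⟨Or.inl (by linarith), Or.inr (by linarith)⟩
  · exact ⟨Or.inr (by linarith), Or.inl (by linarith)⟩
  · exact ⟨Or.inl (by linarith), Or.inl (by linarith)⟩

/-- CI -/
theorem ci : S_CI := by
  intro n g hg k k' x x' hk hk' h0 h1 h0' h1' r1 r2
  have hn := hg.four
  obtain ⟨θ, hθ⟩ : ∃ θ, θ = x - k := ⟨_, rfl⟩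
  obtain ⟨θ', hθ'⟩ : ∃ θ', θ' = x' - k' := ⟨_, rfl⟩
  rw [← hθ, ← hθ'] at r1 r2
  have hθ0 : 0 ≤ θ := by linarith
  have hθ1 : θ ≤ 1 := by linarith
  have hθ0' : 0 ≤ θ' := by linarith
  have hθ1' : θ' ≤ 1 := by linarith
  by_cases hkk : k = k'
  · subst hkk
    left
    have : θ = θ' := by
      rcases nb_cases (hg.adj k hk) with c | c | c | c <;> rw [c.1] at r1 <;> rw [c.2] at r2 <;>
        push_cast at r1 r2 <;> linarith
    linarith
  · obtain ⟨v, v'⟩ := vertex hg hk hk' hkk hθ0 hθ1 hθ0' hθ1' r1 r2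
    rcases v with v | v <;> rcases v' with v' | v' <;> rw [v, v'] at r1 r2
    · exfalso
      apply hkk
      apply hg.inj k hk k' hk'
      apply Prod.ext
      · have : ((g k).1 : ℝ) = (g k').1 := by linarith
        exact_mod_cast this
      · have : ((g k).2 : ℝ) = (g k').2 := by linarith
        exact_mod_cast this
    · have u : g k = g (k' + 1) := by
        apply Prod.ext
        · have : ((g k).1 : ℝ) = (g (k' + 1)).1 := by linarith
          exact_mod_cast this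
        · have : ((g k).2 : ℝ) = (g (k' + 1)).2 := by linarith
          exact_mod_cast this
      rcases Nat.lt_or_ge (k' + 1) n with h | h
      · left
        have h3 := hg.inj k hk (k' + 1) h u
        have h4 : (k : ℝ) = k' + 1 := by exact_mod_cast h3
        linarith
      · right; left
        have h3 : k' + 1 = n := by omega
        rw [h3, hg.clo] at u
        have h4 := hg.inj k hk 0 (by omega) u
        have h5 : (k' : ℝ) + 1 = n := by exact_mod_cast h3
        have h6 : (k : ℝ) = 0 := by exact_mod_cast h4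
        constructor <;> linarith
    · have u : g (k + 1) = g k' := by
        apply Prod.ext
        · have : ((g (k + 1)).1 : ℝ) = (g k').1 := by linarith
          exact_mod_cast this
        · have : ((g (k + 1)).2 : ℝ) = (g k').2 := by linarith
          exact_mod_cast this
      rcases Nat.lt_or_ge (k + 1) n with h | h
      · left
        have h3 := hg.inj (k + 1) h k' hk' u
        have h4 : (k : ℝ) + 1 = k' := by exact_mod_cast h3
        linarith
      · right; right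
        have h3 : k + 1 = n := by omega
        rw [h3, hg.clo] at u
        have h4 := hg.inj 0 (by omega) k' hk' u
        have h5 : (k : ℝ) + 1 = n := by exact_mod_cast h3
        have h6 : (k' : ℝ) = 0 := by exact_mod_cast h4.symm
        constructor <;> linarith
    · exfalso
      have u : g (k + 1) = g (k' + 1) := by
        apply Prod.ext
        · have : ((g (k + 1)).1 : ℝ) = (g (k' + 1)).1 := by linarith
          exact_mod_cast this
        · have : ((g (k + 1)).2 : ℝ) = (g (k' + 1)).2 := by linarith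
          exact_mod_cast this
      rcases Nat.lt_or_ge (k + 1) n with h | h <;> rcases Nat.lt_or_ge (k' + 1) n with h' | h'
      · have := hg.inj (k + 1) h (k' + 1) h' u
        omega
      · have h3 : k' + 1 = n := by omega
        rw [h3, hg.clo] at u
        have := hg.inj (k + 1) h 0 (by omega) u
        omega
      · have h3 : k + 1 = n := by omega
        rw [h3, hg.clo] at u
        have := hg.inj 0 (by omega) (k' + 1) h' u
        omega
      · omega

end Pool.Agent.N769.PS
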